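import Pool.Agent.Helper19_RFK.Stmts

/-! # RFK (MP_ccba21_an): module RADM. -/

set_option autoImplicit false

namespace Pool.Agent.RFK.H34

open Pool.Agent.RFK Filter Topology

lemma strict {f : ℂ → ℝ} (hf : ∀ (e : ℂ) (s : ℝ), ‖e‖ = 1 → 0 < s → polar e s f = f)
    {x y : ℂ} (hxy : ‖x‖ < ‖y‖) : f y ≤ f x := by
  have hne : y - x ≠ 0 := by
    intro h
    have : y = x := sub_eq_zero.1 h
    rw [this] at hxy
    exact lt_irrefl _ hxy
  set D : ℝ := ‖y - x‖ with hD
  have hD0 : 0 < D := norm_pos_iff.2 hne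
  set e : ℂ := (D⁻¹ : ℝ) • (y - x) with he
  set s : ℝ := (‖y‖ ^ 2 - ‖x‖ ^ 2) / (2 * D) with hs
  have hen : ‖e‖ = 1 := by
    rw [he, norm_smul, Real.norm_eq_abs, abs_of_pos (inv_pos.2 hD0), ← hD]
    exact inv_mul_cancel₀ hD0.ne'
  have hs0 : 0 < s := by
    apply div_pos _ (by positivity)
    have := norm_nonneg x
    nlinarith
  have hin : inner ℝ e x = (inner ℝ y x - ‖x‖ ^ 2) / D := by
    rw [he, real_inner_smul_left, inner_sub_left, real_inner_self_eq_norm_sq]
    field_simp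
  have hsq : D ^ 2 = ‖y‖ ^ 2 - 2 * inner ℝ y x + ‖x‖ ^ 2 := by
    rw [hD]; exact norm_sub_sq_real y x
  have hdiff : inner ℝ e x - s = -(D / 2) := by
    rw [hin, hs]
    field_simp
    linarith
  have hrefl : refl e s x = y := by
    rw [refl, hdiff, he, smul_smul]
    have : 2 * -(D / 2) * D⁻¹ = (-1 : ℝ) := by field_simp
    rw [this]
    simp
  have h1 := congrFun (hf e s hen hs0) x
  rw [polar, if_pos (by linarith), hrefl] at h1
  rw [← h1]
  exact le_max_right _ _

/-- RADM -/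
theorem radm : RadmStmt := by
  intro f hc hf x y hxy
  rcases lt_or_eq_of_le hxy with h | h
  · exact strict hf h
  · rcases eq_or_ne x 0 with h0 | h0
    · subst h0
      rw [norm_zero] at h
      rw [norm_eq_zero.1 h.symm]
    · have hx : 0 < ‖x‖ := norm_pos_iff.2 h0
      have ht : Tendsto (fun t : ℝ => f (t • x)) (𝓝[<] 1) (𝓝 (f x)) := by
        have h1 : Continuous (fun t : ℝ => f (t • x)) := by fun_prop
        have h2 := (h1.tendsto 1).mono_left (nhdsWithin_le_nhds (s := Set.Iio 1))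
        simpa using h2
      refine ge_of_tendsto ht ?_
      have hm : Set.Ioo (0 : ℝ) 1 ∈ 𝓝[<] (1 : ℝ) := Ioo_mem_nhdsLT (by norm_num)
      filter_upwards [hm] with t ht
      apply strict hf
      rw [norm_smul, Real.norm_eq_abs, abs_of_pos ht.1, ← h]
      calc t * ‖x‖ < 1 * ‖x‖ := mul_lt_mul_of_pos_right ht.2 hx
        _ = ‖x‖ := one_mul _

end Pool.Agent.RFK.H34
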